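import Pool.Agent.H97.HV.Targets4

/-!
# WFT: the structure of the terms is well-founded (variant of Pool/Agent/H93/WM/WFT.lean)
-/

open Ordinal Cardinal Order Set
open scoped ZFSet

universe u

namespace HD.HW.H27

open HD.PRK HD.HV Pool.Agent.H54.WM

theorem pf_WFT (hTSH : HD.HW.T_TSH.{u}) : HD.HW.T_WFT.{u} := by
  intro γ ξ κ j hB hCC
  rw [wellFounded_iff_isEmpty_descending_chain]
  refine ⟨fun ⟨s, hs⟩ => ?_⟩
  have hsv : ∀ s t : HD.HW.Tm γ ξ κ, ∀ n, NV (min γ ξ) (sv [s.f, t.f] n) := by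
    intro s t n
    rcases n with _ | _ | n
    · exact s.hf
    · exact t.hf
    · exact HD.HW.nv_empty hB.gξ
  obtain ⟨c, hc, h⟩ := hCC (fun n => (s n).b)
    (fun n => HD.HW.TS γ ξ (.mem 0 1) (sv [(s (n + 1)).f, (s n).f])) (fun n => (s n).hb)
    (fun n => ⟨hTSH γ ξ hB.gξ _ _ (hsv _ _), fun w hw =>
      HD.HW.HW_sub γ ξ (HD.HW.mem_TS.1 hw).1⟩) hs
  have h1 : ∀ n, ap (s (n + 1)).f (c (n + 1)) ∈ ap (s n).f (c n) := by
    intro n
    have h2 := (HD.HW.mem_TS.1 (h n)).2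
    have h3 : ap (s (n + 1)).f (pr 0 (tup [c (n + 1), c n])) ∈
        ap (s n).f (pr 1 (tup [c (n + 1), c n])) := h2
    rw [pr_tup, pr_tup] at h3
    exact h3
  have hw : WellFounded fun x y : ZFSet.{u} => x ∈ y := ZFSet.mem_wf
  rw [wellFounded_iff_isEmpty_descending_chain] at hw
  exact hw.false ⟨fun n => ap (s n).f (c n), h1⟩

end HD.HW.H27
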